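import Pool.Agent.H654R5.PT.Stm

namespace Pool.Agent.H654R5.PT.SPL

open Pool.Agent.H654R5.PT

theorem SPL_proof (h1 : S_STR) : S_SPL := by
  classical
  obtain ⟨-, -, -, hmem, -⟩ := h1
  intro n T X hX hT hTX
  have hlen : ∀ x ∈ X, x.length = n := fun x hx => (hmem n x).mp (hX hx)
  -- the weights
  let w : ℕ → List Bool → ℕ := fun i x => (X.filter (fun y => y.take i = x.take i)).card
  have hw0 : ∀ x, w 0 x = X.card := by
    intro x
    simp [w]
  have hwn : ∀ x ∈ X, w n x < T := by
    intro x hx
    have h : X.filter (fun y => y.take n = x.take n) ⊆ {x} := by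
      intro y hy
      rw [Finset.mem_filter] at hy
      rw [Finset.mem_singleton]
      have e1 : y.take n = y := List.take_of_length_le (hlen y hy.1).le
      have e2 : x.take n = x := List.take_of_length_le (hlen x hx).le
      rw [← e1, ← e2]; exact hy.2
    have h2 := Finset.card_le_card h
    rw [Finset.card_singleton] at h2
    show (X.filter (fun y => y.take n = x.take n)).card < T
    omega
  have hex : ∀ x ∈ X, ∃ i, i < n ∧ T ≤ w i x ∧ w (i + 1) x < T := by
    intro x hx
    by_contra hcon
    push Not at hcon
    have hall : ∀ i, i ≤ n → T ≤ w i x := by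
      intro i
      induction i with
      | zero => intro _; rw [hw0]; exact hTX
      | succ i ih =>
        intro hi
        exact hcon i (by omega) (ih (by omega))
    exact absurd (hall n le_rfl) (not_le.mpr (hwn x hx))
  have hex' : ∀ x, ∃ i, x ∈ X → i < n ∧ T ≤ w i x ∧ w (i + 1) x < T := by
    intro x
    by_cases hx : x ∈ X
    · obtain ⟨i, hi⟩ := hex x hx
      exact ⟨i, fun _ => hi⟩
    · exact ⟨0, fun h => absurd h hx⟩
  choose f hf using hex'
  -- pigeonhole
  have hsum : X.card = ∑ i ∈ Finset.range n, (X.filter (fun x => f x = i)).card :=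
    Finset.card_eq_sum_card_fiberwise (fun x hx => Finset.mem_coe.mpr
      (Finset.mem_range.mpr (hf x (Finset.mem_coe.mp hx)).1))
  obtain ⟨i, hi, hmax⟩ : ∃ i ∈ Finset.range n,
      X.card ≤ n * (X.filter (fun x => f x = i)).card := by
    by_contra hcon
    push Not at hcon
    have hn : 0 < n := by
      obtain ⟨x, hx⟩ : X.Nonempty := by
        rw [← Finset.card_pos]; omega
      have := (hf x hx).1
      omega
    have h2 : n * X.card < n * X.card := by
      calc n * X.card = ∑ i ∈ Finset.range n, n * (X.filter (fun x => f x = i)).card := by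
            rw [← Finset.mul_sum, ← hsum]
        _ < ∑ i ∈ Finset.range n, X.card :=
            Finset.sum_lt_sum_of_nonempty ⟨0, Finset.mem_range.mpr hn⟩ hcon
        _ = n * X.card := by simp
    exact lt_irrefl _ h2
  have hin : i < n := Finset.mem_range.mp hi
  set Xi := X.filter (fun x => f x = i) with hXi
  have hXiX : ∀ x ∈ Xi, x ∈ X ∧ T ≤ w i x ∧ w (i + 1) x < T := by
    intro x hx
    rw [hXi, Finset.mem_filter] at hx
    have := hf x hx.1
    rw [hx.2] at this
    exact ⟨hx.1, this.2⟩
  refine ⟨i, hin, Xi.image (fun x => x.take i), ?_, ?_⟩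
  · intro u hu
    rw [Finset.mem_image] at hu
    obtain ⟨x, hx, rfl⟩ := hu
    obtain ⟨hxX, hwx, -⟩ := hXiX x hx
    constructor
    · rw [List.length_take, hlen x hxX]; omega
    · refine hwx.trans ?_
      refine Finset.card_le_card_of_injOn (fun y => y.drop i) ?_ ?_
      · intro y hy
        rw [Finset.mem_coe, Finset.mem_filter] at hy
        rw [Finset.mem_coe, Finset.mem_filter, hmem]
        refine ⟨?_, ?_⟩
        · rw [List.length_drop, hlen y hy.1]
        · rw [← hy.2, List.take_append_drop]
          exact hy.1
      · intro y hy y' hy' he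
        rw [Finset.mem_coe, Finset.mem_filter] at hy hy'
        have he' : y.drop i = y'.drop i := he
        rw [← List.take_append_drop i y, ← List.take_append_drop i y', he', hy.2, hy'.2]
  · have hfib : Xi.card ≤ (2 * T) * (Xi.image (fun x => x.take i)).card := by
      refine Finset.card_le_mul_card_image _ _ ?_
      intro u hu
      have hpart : ∀ b : Bool, (Xi.filter (fun y => y.take (i + 1) = u ++ [b])).card ≤ T := by
        intro b
        rcases Finset.eq_empty_or_nonempty (Xi.filter (fun y => y.take (i + 1) = u ++ [b])) with
          he | ⟨y0, hy0⟩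
        · rw [he, Finset.card_empty]; omega
        · rw [Finset.mem_filter] at hy0
          have h3 := (hXiX y0 hy0.1).2.2
          refine le_trans (Finset.card_le_card ?_) h3.le
          intro y hy
          rw [Finset.mem_filter] at hy ⊢
          exact ⟨(hXiX y hy.1).1, by rw [hy.2, hy0.2]⟩
      have hsub : Xi.filter (fun x => x.take i = u) ⊆
          (Xi.filter (fun y => y.take (i + 1) = u ++ [false])) ∪
            (Xi.filter (fun y => y.take (i + 1) = u ++ [true])) := by
        intro y hy
        rw [Finset.mem_filter] at hy
        have hyl := hlen y (hXiX y hy.1).1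
        have hil : i < y.length := by omega
        have h4 : y.take (i + 1) = y.take i ++ [y[i]] := by
          rw [List.take_succ_eq_append_getElem hil]
        rw [Finset.mem_union]
        cases hb : y[i] with
        | false => left; exact Finset.mem_filter.mpr ⟨hy.1, by rw [h4, hy.2, hb]⟩
        | true => right; exact Finset.mem_filter.mpr ⟨hy.1, by rw [h4, hy.2, hb]⟩
      calc (Xi.filter (fun x => x.take i = u)).card ≤ _ := Finset.card_le_card hsub
        _ ≤ _ := Finset.card_union_le _ _
        _ ≤ T + T := Nat.add_le_add (hpart false) (hpart true)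
        _ = 2 * T := by ring
    calc X.card ≤ n * Xi.card := hmax
      _ ≤ n * ((2 * T) * (Xi.image (fun x => x.take i)).card) := Nat.mul_le_mul_left _ hfib
      _ = 2 * T * n * (Xi.image (fun x => x.take i)).card := by ring

end Pool.Agent.H654R5.PT.SPL
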